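import Pool.Agent.Y305.WD.Fin
import Pool.Agent.Y305.WD.Cnt
import Pool.Agent.Y177.WD.Dct
import Pool.Agent.Y291.WD.Wc
import Pool.Agent.Y592.WD.Part
import Pool.Agent.Y406.WD.Glue
import Pool.Agent.Y117.WD.Wk

/-!
# Measures of weak non-compactness in `C(K)`: classification by the Cantor-Bendixson height

`der K n` is the `n`-th Cantor-Bendixson derivative of the compact Hausdorff space `K`.
-/

set_option autoImplicit false

open Filter Topology Set
open scoped ENNReal NNReal
open Pool.Agent.H86R3.Wnc Pool.Agent.Y305.WD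

namespace Pool.Agent.Results.MP_ca490d_an.Classification

universe u

/-- Let `K` be a compact Hausdorff space.
(1) If `K` is metrizable, then the De Blasi measure is dominated by a multiple of `wk` on the bounded
subsets of `C(K)` if and only if some Cantor-Bendixson derivative of finite order is empty.
(2) If `K` is metrizable and the derivative of order `n + 1` is empty, the constant `3 * 2 ^ n` works.
(3) If all derivatives of finite order are nonempty, then no multiple of `wk` or of `wck` dominates
the De Blasi measure.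
(4) If the derivative of order `n + 1` is nonempty, some bounded set has `wk ≤ 1/2` and `ω ≥ n/2`.
(5) All derivatives of finite order are nonempty if `K` maps continuously onto the unit interval. -/
theorem result (K : Type u) [TopologicalSpace K] [CompactSpace K] [T2Space K] :
    (TopologicalSpace.MetrizableSpace K →
      ((∃ c : ℝ≥0, ∀ A : Set C(K, ℂ), A.Nonempty → Bornology.IsBounded A →
        deBlasi A ≤ (c : ℝ≥0∞) * wk A) ↔ ∃ n : ℕ, der K n = ∅)) ∧
    (TopologicalSpace.MetrizableSpace K → ∀ n : ℕ, der K (n + 1) = ∅ →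
      ∀ A : Set C(K, ℂ), A.Nonempty → Bornology.IsBounded A →
        deBlasi A ≤ ENNReal.ofReal (3 * 2 ^ n) * wk A) ∧
    ((∀ n : ℕ, (der K n).Nonempty) → ∀ c : ℝ≥0, ∃ A : Set C(K, ℂ), A.Nonempty ∧
      Bornology.IsBounded A ∧ (c : ℝ≥0∞) * wk A < deBlasi A ∧
      (c : ℝ≥0∞) * wck A < deBlasi A) ∧
    (∀ n : ℕ, (der K (n + 1)).Nonempty → ∃ A : Set C(K, ℂ), A.Nonempty ∧
      Bornology.IsBounded A ∧ wk A ≤ ENNReal.ofReal (1 / 2) ∧
      ENNReal.ofReal (n / 2) ≤ deBlasi A) ∧
    ∀ ψ : C(K, unitInterval), Function.Surjective ψ → ∀ n : ℕ, (der K n).Nonempty := by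
  have hcl := fun hm : TopologicalSpace.MetrizableSpace K =>
    classification Y406.WD.glue cnt Y592.WD.part (Y291.WD.wc Y177.WD.dct) Y117.WD.wk_near K hm
  refine ⟨fun hm => (hcl hm).1, fun hm => (hcl hm).2, fun h c => infinite_height K h c,
    fun n hn => level K n hn, fun ψ hψ n => ?_⟩
  obtain ⟨x, hx, -⟩ := der_onto ψ hψ n 0
  exact ⟨x, hx⟩

end Pool.Agent.Results.MP_ca490d_an.Classification
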